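import Pool.Agent.Y223.G.Stm13

/-!
# Stability of the weighted homogeneous coordinate algebra of a product of elliptic curves
-/

set_option autoImplicit false

namespace Pool.Agent.Y356.H.ECS

open Pool.Agent.Y223.G

section

variable {K : Type} [Field K]

/-- The products of elements of `R` and of weighted monomials of degree `n`. -/
def Gn (R : Set (LP K)) (W : Fin (2 + 1) → ℕ) (z : Fin (2 + 1) → K) (n : ℕ) : Set (LP K) :=
  {f | ∃ r ∈ R, ∃ a : Fin (2 + 1) → ℕ, ∑ j, a j = n ∧
    f = r * hm ((∑ j, W j * a j : ℕ) : ℤ) (∏ j, z j ^ a j)}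

/-- The sums of such products. -/
noncomputable def Pn (R : Set (LP K)) (W : Fin (2 + 1) → ℕ) (z : Fin (2 + 1) → K) (n : ℕ) :
    AddSubmonoid (LP K) := AddSubmonoid.closure (Gn R W z n)

variable {R : Set (LP K)} {W : Fin (2 + 1) → ℕ} {z : Fin (2 + 1) → K}

lemma Pn_mul (hR : ∀ f ∈ R, ∀ g ∈ R, f * g ∈ R) {m n : ℕ} {f g : LP K} (hf : f ∈ Pn R W z m)
    (hg : g ∈ Pn R W z n) : f * g ∈ Pn R W z (m + n) := by
  unfold Pn at hf hg ⊢
  induction hf using AddSubmonoid.closure_induction with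
  | mem f hf =>
    induction hg using AddSubmonoid.closure_induction with
    | mem g hg =>
      obtain ⟨r, hr, a, ha, rfl⟩ := hf
      obtain ⟨r', hr', b, hb, rfl⟩ := hg
      refine AddSubmonoid.subset_closure ⟨r * r', hR _ hr _ hr', a + b, ?_, ?_⟩
      · simp only [Pi.add_apply, Finset.sum_add_distrib, ha, hb]
      · rw [mul_mul_mul_comm, hm_mul]
        congr 2
        · push_cast
          rw [← Finset.sum_add_distrib]
          refine Finset.sum_congr rfl fun j _ => ?_
          simp only [Pi.add_apply]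
          push_cast
          ring
        · rw [← Finset.prod_mul_distrib]
          refine Finset.prod_congr rfl fun j _ => ?_
          simp only [Pi.add_apply, pow_add]
    | zero => rw [mul_zero]; exact zero_mem _
    | add x y _ _ hx hy => rw [mul_add]; exact add_mem hx hy
  | zero => rw [zero_mul]; exact zero_mem _
  | add x y _ _ hx hy => rw [add_mul]; exact add_mem hx hy

lemma Pn_one (h1 : (1 : LP K) ∈ R) : (1 : LP K) ∈ Pn R W z 0 := by
  refine AddSubmonoid.subset_closure ⟨1, h1, 0, by simp, ?_⟩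
  simp [hm_one]

lemma Pn_pow (hR : ∀ f ∈ R, ∀ g ∈ R, f * g ∈ R) (h1 : (1 : LP K) ∈ R) {f : LP K}
    (hf : f ∈ Pn R W z 1) (n : ℕ) : f ^ n ∈ Pn R W z n := by
  induction n with
  | zero => rw [pow_zero]; exact Pn_one h1
  | succ n ih => rw [pow_succ]; exact Pn_mul hR ih hf

lemma Pn_prod (hR : ∀ f ∈ R, ∀ g ∈ R, f * g ∈ R) (h1 : (1 : LP K) ∈ R)
    (s : Finset (Fin (2 + 1))) (f : Fin (2 + 1) → LP K) (hf : ∀ j, f j ∈ Pn R W z 1)
    (a : Fin (2 + 1) → ℕ) : ∏ j ∈ s, f j ^ a j ∈ Pn R W z (∑ j ∈ s, a j) := by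
  classical
  induction s using Finset.induction_on with
  | empty => rw [Finset.prod_empty, Finset.sum_empty]; exact Pn_one h1
  | insert j s hj ih =>
    rw [Finset.prod_insert hj, Finset.sum_insert hj]
    exact Pn_mul hR (Pn_pow hR h1 (hf j) _) ih

lemma prod_hm (s : Finset (Fin (2 + 1))) (w : Fin (2 + 1) → ℕ) (x : Fin (2 + 1) → K)
    (a : Fin (2 + 1) → ℕ) :
    ∏ j ∈ s, hm (w j : ℤ) (x j) ^ a j =
      hm ((∑ j ∈ s, w j * a j : ℕ) : ℤ) (∏ j ∈ s, x j ^ a j) := by
  classical
  induction s using Finset.induction_on with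
  | empty => simp [hm_one]
  | insert j s hj ih =>
    rw [Finset.prod_insert hj, Finset.sum_insert hj, Finset.prod_insert hj, ih, hm_pow, hm_mul]
    congr 1
    push_cast
    ring

lemma Pn_var (hR : ∀ f ∈ R, ∀ g ∈ R, f * g ∈ R)
    (hT : ∀ n : ℕ, hm (-(n : ℤ)) 1 ∈ R) {o : K} (ho : hm 0 o ∈ R) (w : ℕ) (j : Fin (2 + 1))
    (hw : w ≤ W j) : hm (w : ℤ) (o * z j) ∈ Pn R W z 1 := by
  refine AddSubmonoid.subset_closure ⟨hm 0 o * hm (-((W j - w : ℕ) : ℤ)) 1,
    hR _ ho _ (hT _), Pi.single j 1, ?_, ?_⟩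
  · simp
  · have h1 : ∑ i, W i * (Pi.single j 1 : Fin (2 + 1) → ℕ) i = W j := by
      simp [Pi.single_apply]
    have h2 : ∏ i, z i ^ (Pi.single j 1 : Fin (2 + 1) → ℕ) i = z j := by
      simp [Pi.single_apply]
    rw [h1, h2, hm_mul, hm_mul, mul_one, Nat.cast_sub hw]
    congr 1
    ring

end

theorem t_ECS : S_ECS := by
  intro k O K Ω _ _ _ _ _ _ _ _ σ t hσ 𝔓 𝔓' h𝔓 z hz2 hz l B d Φ hΦ f hf
  set R' := RW k 𝔓' 2 (WE l B) z d Φ with hR'
  have hT : hm (-1) (1 : K) ∈ R' := Algebra.subset_adjoin (Or.inl (Or.inl (Or.inl rfl)))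
  have hO : ∀ o : O, hm 0 (algebraMap O K o) ∈ R' := fun o =>
    Algebra.subset_adjoin (Or.inl (Or.inr ⟨o, rfl⟩))
  have hTn : ∀ n : ℕ, hm (-(n : ℤ)) (1 : K) ∈ (R' : Set (LP K)) := by
    intro n
    have h := pow_mem hT n
    rw [hm_pow, one_pow] at h
    have e : ((n : ℤ) * -1) = -(n : ℤ) := by ring
    rwa [e] at h
  have hmul : ∀ f ∈ (R' : Set (LP K)), ∀ g ∈ (R' : Set (LP K)), f * g ∈ (R' : Set (LP K)) :=
    fun f hf g hg => R'.mul_mem hf hg
  have h1 : (1 : LP K) ∈ (R' : Set (LP K)) := R'.one_mem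
  unfold RW at hf
  induction hf using Algebra.adjoin_induction with
  | mem f hf =>
    rcases hf with ((hf | ⟨a, ha, rfl⟩) | ⟨o, rfl⟩) | ⟨ω, a, ha, rfl⟩
    · rw [Set.mem_singleton_iff] at hf
      subst hf
      rw [tl_hm, map_one]
      exact hT
    · rw [tl_hm, hσ]
      exact Algebra.subset_adjoin (Or.inl (Or.inl (Or.inr ⟨_, h𝔓 a ha, rfl⟩)))
    · rw [tl_hm, hσ]
      exact hO _
    · rw [tl_hm, map_div₀, hΦ, map_prod]
      simp only [map_pow]
      have key : hm ((∑ j, WE l B ω j * a j : ℕ) : ℤ) (∏ j, σ (z ω j) ^ a j) ∈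
          Pn (R' : Set (LP K)) (WE l B ω) (z ω) d := by
        rw [← prod_hm, ← ha]
        refine Pn_prod hmul h1 _ _ ?_ _
        obtain ⟨u, r, s, v, hx, hy⟩ := hz ω
        have hW1 : WE l B ω 1 = 0 := by
          unfold WE
          split_ifs
          · rfl
          · rfl
        have hW02 : WE l B ω 0 ≤ WE l B ω 2 := by
          unfold WE
          split_ifs
          · show l ≤ 3 * l
            omega
          · exact le_rfl
        intro j
        have hc : j = 0 ∨ j = 1 ∨ j = 2 := by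
          fin_cases j <;> simp
        rcases hc with rfl | rfl | rfl
        · rw [hx, hm_add]
          refine add_mem (Pn_var hmul hTn (hO _) _ 0 le_rfl) ?_
          have := Pn_var (z := z ω) hmul hTn (hO r) _ 2 hW02
          rwa [hz2, mul_one] at this
        · rw [hy, hm_add, hm_add, hW1]
          refine add_mem (add_mem (Pn_var hmul hTn (hO _) _ 1 (Nat.zero_le _))
            (Pn_var hmul hTn (hO _) _ 0 (Nat.zero_le _))) ?_
          have := Pn_var (z := z ω) hmul hTn (hO v) 0 2 (Nat.zero_le (WE l B ω 2))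
          rwa [hz2, mul_one] at this
        · rw [hz2, map_one]
          have := Pn_var (z := z ω) hmul hTn (hO 1) _ 2 (le_refl (WE l B ω 2))
          rwa [hz2, map_one, mul_one] at this
      have fin : ∀ g ∈ Pn (R' : Set (LP K)) (WE l B ω) (z ω) d, g * hm 0 (Φ ω)⁻¹ ∈ R' := by
        intro g hg
        unfold Pn at hg
        induction hg using AddSubmonoid.closure_induction with
        | mem g hg =>
          obtain ⟨r, hr, b, hb, rfl⟩ := hg
          rw [mul_assoc, hm_mul, add_zero, ← div_eq_mul_inv]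
          exact R'.mul_mem hr (Algebra.subset_adjoin (Or.inr ⟨ω, b, hb, rfl⟩))
        | zero => rw [zero_mul]; exact R'.zero_mem
        | add x y _ _ hx hy => rw [add_mul]; exact R'.add_mem hx hy
      have := fin _ key
      rwa [hm_mul, add_zero, ← div_eq_mul_inv] at this
  | algebraMap r => rw [AlgEquiv.commutes]; exact R'.algebraMap_mem r
  | add x y _ _ hx hy => rw [map_add]; exact R'.add_mem hx hy
  | mul x y _ _ hx hy => rw [map_mul]; exact R'.mul_mem hx hy

end Pool.Agent.Y356.H.ECS
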