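import Pool.Agent.Y223.G.Stm9
import Pool.Agent.Y688.G.CHB

/-!
# Project G (helper223), job H-CHE: assembly of the chart theorem `S_CHE`

An adaptation of the file CHB of Y688 to the second grading.
-/

set_option autoImplicit false

namespace Pool.Agent.Y356.H

open Pool.Agent.Y223.G IsLocalRing

section
variable {k O K K₂ G : Type} [CommRing k] [CommRing O] [Field K] [Field K₂] [Group G]
  [Algebra k O] [Algebra O K] [Algebra k K] [Algebra k K₂]

/-- the monomials which do not involve the second variable -/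
lemma R2_mem {ε : LP K →ₐ[k] K₂} {R : Subalgebra k (LP K)} {π : K} {d : ℤ} {a : K}
    (h : hm d a ∈ R) : hm d (ε (hm 0 a)) ∈ R2 ε R π :=
  Algebra.subset_adjoin (Or.inl ⟨d, a, h, rfl⟩)

lemma R2_pos {ε : LP K →ₐ[k] K₂} {R : Subalgebra k (LP K)} {π : K} :
    hm 0 (ε (hm 1 π)) ∈ R2 ε R π :=
  Algebra.subset_adjoin (Or.inr (Or.inl rfl))

lemma R2_neg {ε : LP K →ₐ[k] K₂} {R : Subalgebra k (LP K)} {π : K} :
    hm 0 (ε (hm (-1) π⁻¹)) ∈ R2 ε R π :=
  Algebra.subset_adjoin (Or.inr (Or.inr rfl))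

/-- the algebra `R2` is stable -/
lemma R2_stable {ε : LP K →ₐ[k] K₂} {σ : K ≃ₐ[k] K} {σ₂ : K₂ ≃ₐ[k] K₂}
    (hσ : ∀ w, σ₂ (ε w) = ε (tl σ w)) {R : Subalgebra k (LP K)} (hR : ∀ f ∈ R, tl σ f ∈ R)
    {π w w' : K} (hw : σ π = w * π) (hww : w * w' = 1) (h1 : hm 0 w ∈ R) (h2 : hm 0 w' ∈ R) :
    ∀ f ∈ R2 ε R π, tl σ₂ f ∈ R2 ε R π := by
  intro f hf
  have hle : R2 ε R π ≤ (R2 ε R π).comap ((tl σ₂ : LP K₂ ≃ₐ[k] LP K₂) : LP K₂ →ₐ[k] LP K₂) := by
    unfold R2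
    rw [Algebra.adjoin_le_iff]
    rintro x (⟨d, a, ha, rfl⟩ | rfl | rfl)
    · show tl σ₂ (hm d (ε (hm 0 a))) ∈ R2 ε R π
      rw [tl_hm, hσ, tl_hm]
      refine R2_mem ?_
      have := hR _ ha
      rwa [tl_hm] at this
    · show tl σ₂ (hm 0 (ε (hm 1 π))) ∈ R2 ε R π
      rw [tl_hm, hσ, tl_hm, hw]
      have e : hm 0 (ε (hm 1 (w * π))) = hm 0 (ε (hm 0 w)) * hm 0 (ε (hm 1 π)) := by
        rw [hm_mul, ← map_mul, hm_mul, zero_add, zero_add]
      rw [e]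
      exact mul_mem (R2_mem h1) R2_pos
    · show tl σ₂ (hm 0 (ε (hm (-1) π⁻¹))) ∈ R2 ε R π
      have e0 : σ π⁻¹ = w' * π⁻¹ := by
        rw [map_inv₀, hw, mul_inv]
        congr 1
        exact inv_eq_of_mul_eq_one_right hww
      rw [tl_hm, hσ, tl_hm, e0]
      have e : hm 0 (ε (hm (-1) (w' * π⁻¹))) = hm 0 (ε (hm 0 w')) * hm 0 (ε (hm (-1) π⁻¹)) := by
        rw [hm_mul, ← map_mul, hm_mul, zero_add, zero_add]
      rw [e]
      exact mul_mem (R2_mem h2) R2_neg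
  exact hle hf

end

theorem t_CHE : S_STEPG → S_REG0 → S_RECH → S_R2CH → S_R2M → S_REIN → S_BWLD → S_CHE := by
  intro hSTEP hREG hRECH hR2CH _ hREIN hBW k O K K₂ G Ω _ _ _ _ _ _ _ _ _ _ _ _ _ _ _ _ ε hε
    ρ ρ₂ hρ T N _ 𝔔 p l τ π hL A hA hsm K' _ _ ι hι
  have hC1 : ∀ g, ∀ c ∈ (⨆ ω, A ω : Subalgebra O K), ρ g c ∈ (⨆ ω, A ω : Subalgebra O K) :=
    Pool.Agent.Y688.G.st_iSup (T := T) hA.st hL.com
  have hCfg : (⨆ ω, A ω : Subalgebra O K).FG := by
    apply Pool.Agent.Y688.G.fg_iSup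
    intro ω
    exact (Subalgebra.fg_iff_finiteType _).2 (hA.ft ω)
  have hCf : Algebra.FiniteType O (⨆ ω, A ω : Subalgebra O K) :=
    (Subalgebra.fg_iff_finiteType _).1 hCfg
  have hON : IsNoetherianRing O := inferInstance
  have hCN : IsNoetherianRing (⨆ ω, A ω : Subalgebra O K) :=
    Algebra.FiniteType.isNoetherianRing O _
  have hp : ∀ i, 0 < p i := fun i => (hL.ty i).1.pp.pos
  have hreg : ∀ i, IsRegularRing (RR k (ρ (τ i)) (p i) (𝔔 i) (l i) (⨆ ω, A ω)) := by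
    intro i
    obtain ⟨hW, hτ, _⟩ := hL.ty i
    have hϖ : ∀ ω, (MulAction.toPerm (τ i) : Equiv.Perm Ω)^[p i] ω = ω := by
      intro ω
      have h1 : ∀ n : ℕ, (MulAction.toPerm (τ i) : Equiv.Perm Ω)^[n] ω = (τ i ^ n) • ω := by
        intro n
        induction n with
        | zero => simp
        | succ n ih =>
          rw [Function.iterate_succ_apply', ih, MulAction.toPerm_apply, smul_smul, pow_succ']
      rw [h1, hτ, one_smul]
    exact hREG k O K (p i) (ρ (τ i)) (T (τ i)) (𝔔 i) (l i) hW _ hCf hA.rg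
      (Pool.Agent.Y688.G.rst ρ _ hC1 (τ i)) (fun c => rfl)
      (fun Q _ hQ hσQ => hBW k O K hL.inj (p i) hW.pp (ρ (τ i)) (T (τ i)) hW.ord hW.com Ω A
        (MulAction.toPerm (τ i)) hϖ (fun ω x hx => hA.st (τ i) ω x hx) hA.ft hA.ld
        (fun ω hω => hA.fx ω (τ i) hω) (𝔔 i) (fun ω q _ hq => hsm i ω q hq) _ rfl hCN
        (Pool.Agent.Y688.G.rst ρ _ hC1 (τ i)) (fun c => rfl) Q hQ hσQ)
  obtain ⟨hCh, hSt⟩ := hRECH k O K G ρ T N 𝔔 p l τ π hL _ hC1 hCf hA.rg hreg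
  have hπ0 : algebraMap O K π ≠ 0 := fun h => hL.p0 (hL.inj (h.trans (map_zero _).symm))
  have hO : ∀ o : O, hm 0 (algebraMap O K o) ∈ RG k ρ 𝔔 p l τ (⨆ ω, A ω) := fun o =>
    Algebra.mem_inf.2 ⟨RR_c one_pos (Subalgebra.algebraMap_mem _ _),
      Algebra.mem_iInf.2 fun i => RR_c (hp i) (Subalgebra.algebraMap_mem _ _)⟩
  refine hSTEP k K₂ K' ι G ρ₂ hι (R2 ε (RG k ρ 𝔔 p l τ (⨆ ω, A ω)) (algebraMap O K π))
    (hR2CH k K K₂ ε hε _ hCh _ hπ0) ?_ ?_
    (hREIN k O K K₂ G ε hε ρ ρ₂ hρ T N 𝔔 p l τ π hL _ hC1 _ rfl)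
  · -- stability
    intro g
    obtain ⟨w, hw⟩ := hL.wi g
    obtain ⟨w', hw'⟩ := hL.wi g⁻¹
    have hTT : ∀ o, T g (T g⁻¹ o) = o := by
      intro o
      have h1 : (T g * T g⁻¹) o = o := by
        rw [← map_mul, mul_inv_cancel, map_one]
        rfl
      exact h1
    have hww : w * T g w' = 1 := by
      have h1 := hTT π
      rw [hw', map_mul, hw] at h1
      have h2 : (w * T g w') * π = 1 * π := by
        rw [one_mul]
        calc (w * T g w') * π = T g w' * (w * π) := by ring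
          _ = π := h1
      exact mul_right_cancel₀ hL.p0 h2
    refine R2_stable (σ := ρ g) (hρ g) (hSt g) (w := algebraMap O K w)
      (w' := algebraMap O K (T g w')) ?_ ?_ (hO _) (hO _)
    · rw [hL.com, hw, map_mul]
    · rw [← map_mul, hww, map_one]
  · -- faithfulness
    intro g hg
    have hfix : ∀ o, T g o = o := by
      intro o
      apply hL.inj
      rw [← hL.com]
      have h1 := hg _ (R2_mem (hO o))
      rw [tl_hm, hρ, tl_hm] at h1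
      exact hm_inj (hε.inj (hm_inj h1))
    apply hL.al ⊥ Ideal.isPrime_bot (fun i h => hL.ne i h.symm)
    · intro o
      rw [Ideal.mem_bot, sub_eq_zero]
      exact hfix o
    · intro w hw
      rw [Ideal.mem_bot, sub_eq_zero]
      rw [hfix] at hw
      exact mul_right_cancel₀ hL.p0 (by rw [one_mul]; exact hw.symm)

end Pool.Agent.Y356.H
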